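import Pool.Agent.Y996.NL.Stm

/-!
Project NL, statements DV and NG.
-/

set_option autoImplicit false

namespace Pool.Agent.Y587.NL

open H974 Finset Pool.Agent.W819.EN Pool.Agent.W819.NC MeasureTheory
open Pool.Agent.Y996.NL

theorem dv : S_DV := by
  intro N W K h F v a r R c D hr hrR hc hcR hRc har hac hRD
  have j1 := h.join F v c a (8 * D) hc hac (by omega)
  have hl := h.left F v c c (8 * D) le_rfl (by omega)
  have hr' := h.right F v c c (8 * D) le_rfl (by omega)
  push_cast at hl hr'
  have key : N F v a (2 * c) ≤ N F v r R + N F v a (2 * r) + W F v r := by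
    by_cases hrc : r ≤ c
    · have j2 := h.join F v r a (2 * c) hr har (by omega)
      have m1 := h.geo.mono F v r r (2 * c) R le_rfl hcR
      omega
    · have m1 := h.geo.mono F v a a (2 * c) (2 * r) le_rfl (by omega)
      omega
  constructor <;> omega

theorem ng : S_NG := by
  intro ω v r R S hrR hS
  have hin : ∀ e ∈ an v r R, e ∈ S := by
    intro e he
    unfold an at he
    exact hS (mem_sdiff.1 he).1
  have key : ∀ e ∈ an v r R, (e ∈ opn ω ↔ e ∈ (↑(FF S ω) : Set Edg)) := by
    intro e he
    rw [FF_coe]
    exact ⟨fun h => ⟨h, hin e he⟩, fun h => h.1⟩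
  unfold NG NA
  congr 1
  ext K
  constructor
  · intro h
    exact Pool.Agent.W918.EN.DA_imp hrR key h
  · intro h
    exact Pool.Agent.W918.EN.DA_imp hrR (fun e he => (key e he).symm) h

end Pool.Agent.Y587.NL
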