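import Pool.Agent.Y996.NL.Stm
import Pool.Agent.W585.NC.ANN

/-!
Project NL, statement SI: moments of the costs of one side under the weighted law.
-/

set_option autoImplicit false

namespace Pool.Agent.Y587.NL

open H974 Finset Pool.Agent.W819.EN Pool.Agent.W819.NC MeasureTheory
open Pool.Agent.Y996.NL
open Pool.Agent.W585.NC (hok bx_mono an_sub an_disj)

lemma sq2 (s : ℝ) (n : ℕ) : (s ^ n) ^ 2 = (s ^ 2) ^ n := by
  rw [← pow_mul, ← pow_mul, mul_comm]

lemma sq4 (s : ℝ) (n : ℕ) : (s ^ (2 * n)) ^ 2 = (s ^ 4) ^ n := by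
  rw [← pow_mul, ← pow_mul]
  congr 1
  ring

theorem si : S_SI := by
  intro N W K h ha hi ho t s M ht hs
  obtain ⟨A1, hA1, hO⟩ := ho t 2 ht
  obtain ⟨A2, hA2, hI⟩ := hi t 3 ht
  have hs2 : 1 ≤ s ^ 2 := one_le_pow₀ hs
  have hs4 : 1 ≤ s ^ 4 := one_le_pow₀ hs
  have hs0 : 0 < s := by linarith
  obtain ⟨C1, hC1, hW⟩ := h.wmom (s ^ 2) hs2
  obtain ⟨C2, hC2, hM⟩ := ha (s ^ 2) hs2 (2 * M)
  obtain ⟨C3, hC3, hK⟩ := h.kmom (s ^ 4) hs4 M
  obtain ⟨C4, hC4⟩ : ∃ C4, C4 = (s ^ (4 * M)) ^ 2 := ⟨_, rfl⟩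
  have hC40 : 0 < C4 := by rw [hC4]; positivity
  obtain ⟨C, hC⟩ : ∃ C, C = C1 + C2 + C3 + C4 + 1 := ⟨_, rfl⟩
  have hC0 : 0 < C := by rw [hC]; linarith
  refine ⟨(A1 + A2) * Real.sqrt C, by positivity, ?_⟩
  intro v a r R c x0 x1 y0 y1 S hr hrR hc hcR hRc har haM hy hx hxM hd hS hL
  have hG0 : 0 ≤ G N t r R := Ex_nonneg hok fun F _ => by positivity
  have hbR : bx v (R : ℤ) ⊆ S := (bx_mono v (by push_cast; omega)).trans hS
  have hb2 : ∀ b : ℕ, b ≤ R → bx v ((2 * b : ℕ) : ℤ) ⊆ S := fun b hb =>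
    (bx_mono v (by push_cast; omega)).trans hS
  have hb2' : ∀ b : ℕ, b ≤ R → bx v (2 * (b : ℤ)) ⊆ S := fun b hb =>
    (bx_mono v (by push_cast; omega)).trans hS
  have out : ∀ (T : Finset Edg) (Y : Finset Edg → ℝ), T ⊆ bx v ((2 * r : ℕ) : ℤ) →
      (∀ F, 0 ≤ Y F) → (∀ F, Y F = Y (F ∩ T)) → Ex P2 S (fun F => Y F ^ 2) ≤ C →
      Ex P2 S (fun F => t ^ N F v r R * Y F) ≤ (A1 + A2) * Real.sqrt C * G N t r R := by
    intro T Y hT hY hYT hE
    have e := hO v r R (2 * r) S T Y hr hrR le_rfl hbR (hT.trans (hb2 r hrR)) hT hY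
      (fun F _ => hYT F)
    refine e.trans ?_
    calc A1 * G N t r R * Real.sqrt (Ex P2 S (fun F => Y F ^ 2))
        ≤ A1 * G N t r R * Real.sqrt C :=
          mul_le_mul_of_nonneg_left (Real.sqrt_le_sqrt hE) (mul_nonneg hA1.le hG0)
      _ = A1 * (Real.sqrt C * G N t r R) := by ring
      _ ≤ (A1 + A2) * (Real.sqrt C * G N t r R) :=
          mul_le_mul_of_nonneg_right (by linarith) (by positivity)
      _ = _ := by ring
  have inn : ∀ (T : Finset Edg) (Y : Finset Edg → ℝ), T ⊆ S → Disjoint T (bx v ((c : ℤ) - 1)) →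
      (∀ F, 0 ≤ Y F) → (∀ F, Y F = Y (F ∩ T)) → Ex P2 S (fun F => Y F ^ 2) ≤ C →
      Ex P2 S (fun F => t ^ N F v r R * Y F) ≤ (A1 + A2) * Real.sqrt C * G N t r R := by
    intro T Y hT hTd hY hYT hE
    have e := hI v r R c S T Y hrR hc (by omega) hbR hT hTd hY (fun F _ => hYT F)
    refine e.trans ?_
    calc A2 * G N t r R * Real.sqrt (Ex P2 S (fun F => Y F ^ 2))
        ≤ A2 * G N t r R * Real.sqrt C :=
          mul_le_mul_of_nonneg_left (Real.sqrt_le_sqrt hE) (mul_nonneg hA2.le hG0)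
      _ = A2 * (Real.sqrt C * G N t r R) := by ring
      _ ≤ (A1 + A2) * (Real.sqrt C * G N t r R) :=
          mul_le_mul_of_nonneg_right (by linarith) (by positivity)
      _ = _ := by ring
  intro j hj
  interval_cases j
  · by_cases ha0 : a = 0
    · have e : ∀ F, XS N W K v a r c x0 x1 y0 y1 0 F = 0 := by
        intro F
        show WA W F v a = 0
        unfold WA
        rw [if_pos ha0]
      simp only [e]
      refine out ∅ (fun _ => s ^ 0) (Finset.empty_subset _) (fun F => by positivity)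
        (fun F => rfl) ?_
      rw [Ex_const, pow_zero, one_pow, hC]
      linarith
    · have e : ∀ F, XS N W K v a r c x0 x1 y0 y1 0 F = W F v a := by
        intro F
        show WA W F v a = W F v a
        unfold WA
        rw [if_neg ha0]
      simp only [e]
      refine out (an v a (2 * a)) (fun F => s ^ W F v a) (an_sub v (by omega))
        (fun F => by positivity) (fun F => by rw [← h.wloc F v a (by omega)]) ?_
      simp only [sq2]
      have := hW v a S (by omega) (hb2' a (by omega))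
      linarith
  · show Ex P2 S (fun F => t ^ N F v r R * s ^ N F v a (2 * r)) ≤ _
    refine out (an v a (2 * r)) (fun F => s ^ N F v a (2 * r)) (an_sub v le_rfl)
      (fun F => by positivity) (fun F => by rw [← h.geo.loc F v a (2 * r) (by omega)]) ?_
    rcases Nat.eq_zero_or_pos a with ha0 | ha0
    · have hrM : r ≤ M := by
        rcases haM with h1 | h1
        · rw [ha0] at h1
          omega
        · exact h1.2
      have e1 : Ex P2 S (fun F => (s ^ N F v a (2 * r)) ^ 2) ≤ Ex P2 S (fun _ => C4) := by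
        refine Ex_mono hok fun F _ => ?_
        rw [hC4]
        refine pow_le_pow_left₀ (by positivity) ?_ 2
        refine pow_le_pow_right₀ hs ?_
        have := h.geo.le F v a (2 * r)
        omega
      rw [Ex_const] at e1
      linarith
    · have hrM : r ≤ M * a := by
        rcases haM with h1 | h1
        · exact h1
        · omega
      simp only [sq2]
      have := hM v a (2 * r) S ha0 (by omega) (by rw [mul_assoc]; omega) (hb2 r hrR)
      linarith
  · show Ex P2 S (fun F => t ^ N F v r R * s ^ W F v r) ≤ _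
    refine out (an v r (2 * r)) (fun F => s ^ W F v r) (an_sub v le_rfl)
      (fun F => by positivity) (fun F => by rw [← h.wloc F v r hr]) ?_
    simp only [sq2]
    have := hW v r S hr (hb2' r hrR)
    linarith
  · show Ex P2 S (fun F => t ^ N F v r R * s ^ W F v c) ≤ _
    refine inn (an v c (2 * c)) (fun F => s ^ W F v c) ((an_sub v le_rfl).trans (hb2 c (by omega)))
      (an_disj v le_rfl) (fun F => by positivity) (fun F => by rw [← h.wloc F v c hc]) ?_
    simp only [sq2]
    have := hW v c S hc (hb2' c (by omega))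
    linarith
  · show Ex P2 S (fun F => t ^ N F v r R * s ^ (2 * K F x0 x1 y0 y1)) ≤ _
    refine inn (LRE x0 x1 y0 y1) (fun F => s ^ (2 * K F x0 x1 y0 y1)) hL hd
      (fun F => by positivity) (fun F => by rw [← h.kloc F x0 x1 y0 y1]) ?_
    simp only [sq4]
    have := hK x0 x1 y0 y1 S hy hx hxM hL
    linarith

end Pool.Agent.Y587.NL
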